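import Mathlib

/-! A reciprocity constraint on integer solutions of `x ^ 4 + y ^ 3 + z ^ 3 = -4`. -/

namespace Pool.Agent.Results.MP_017989_nt.FourDivides

/-- A positive divisor of `x ^ 4 + 4` is not `3` modulo `4`. -/
theorem div_ne_three (x m : ℤ) (hm : 0 < m) (hd : m ∣ x ^ 4 + 4) : m % 4 ≠ 3 := by
  intro h3
  obtain ⟨n, rfl⟩ := Int.eq_ofNat_of_zero_le hm.le
  have hn : n % 4 = 3 := by omega
  have hodd : Odd n := Nat.odd_iff.2 (by omega)
  have h1 : jacobiSym (-4) n = -1 := by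
    have e : (-4 : ℤ) = -1 * 2 ^ 2 := by norm_num
    have hg : Int.gcd 2 n = 1 := by
      have : Nat.Coprime 2 n := Nat.coprime_two_left.2 hodd
      simpa [Int.gcd] using this
    rw [e, jacobiSym.mul_left, jacobiSym.sq_one' hg, jacobiSym.at_neg_one hodd,
      ZMod.χ₄_nat_three_mod_four hn]
    norm_num
  have h2 : jacobiSym (-4) n = jacobiSym (x ^ 4) n := by
    apply jacobiSym.mod_left'
    have : (n : ℤ) ∣ x ^ 4 - -4 := by simpa using hd
    exact (Int.emod_emod_of_dvd _ dvd_rfl).symm.trans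
      ((Int.emod_emod_of_dvd _ dvd_rfl).trans (Int.modEq_iff_dvd.2 this))
  have h4 : jacobiSym (x ^ 4) n = (jacobiSym x n ^ 2) ^ 2 := by
    rw [jacobiSym.pow_left]
    ring
  have := sq_nonneg (jacobiSym x n ^ 2)
  omega

/-- In every integer solution of `x ^ 4 + y ^ 3 + z ^ 3 = -4` one of `y`, `z` is divisible
by `4`. -/
theorem result (x y z : ℤ) (h : x ^ 4 + y ^ 3 + z ^ 3 = -4) : 4 ∣ y ∨ 4 ∣ z := by
  have hf : x ^ 4 + 4 = -(y + z) * (y ^ 2 - y * z + z ^ 2) := by linear_combination h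
  have hN : 0 < x ^ 4 + 4 := by positivity
  have he0 : 0 ≤ y ^ 2 - y * z + z ^ 2 := by nlinarith [sq_nonneg (y - z), sq_nonneg (y + z)]
  have he : 0 < y ^ 2 - y * z + z ^ 2 := by
    rcases he0.lt_or_eq with h1 | h1
    · exact h1
    · rw [← h1, mul_zero] at hf
      omega
  have hd : 0 < -(y + z) := by
    by_contra h1
    have : -(y + z) * (y ^ 2 - y * z + z ^ 2) ≤ 0 :=
      mul_nonpos_of_nonpos_of_nonneg (not_lt.1 h1) he0
    omega
  have c1 := div_ne_three x _ hd ⟨_, hf⟩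
  have c2 := div_ne_three x _ he ⟨_, hf.trans (mul_comm _ _)⟩
  have key : ∀ a b c : ZMod 16, a ^ 4 + b ^ 3 + c ^ 3 = -4 →
      4 * -(b + c) = 12 ∨ 4 * (b ^ 2 - b * c + c ^ 2) = 12 ∨ 4 * b = 0 ∨ 4 * c = 0 := by
    decide
  have hz : (x : ZMod 16) ^ 4 + (y : ZMod 16) ^ 3 + (z : ZMod 16) ^ 3 = -4 := by
    exact_mod_cast congrArg (Int.cast : ℤ → ZMod 16) h
  have tr : ∀ u v : ℤ, ((u : ZMod 16) = (v : ZMod 16)) → u % 16 = v % 16 := fun u v huv =>
    (ZMod.intCast_eq_intCast_iff' u v 16).1 huv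
  rcases key _ _ _ hz with k | k | k | k
  · have := tr (4 * -(y + z)) 12 (by push_cast; exact k)
    omega
  · have := tr (4 * (y ^ 2 - y * z + z ^ 2)) 12 (by push_cast; exact k)
    omega
  · have := tr (4 * y) 0 (by push_cast; exact k)
    omega
  · have := tr (4 * z) 0 (by push_cast; exact k)
    omega

end Pool.Agent.Results.MP_017989_nt.FourDivides
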